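import Mathlib

/-!
# Anisotropic ternary cubic forms modulo `p`
-/

namespace Pool.Agent.Lib.P1ae330

/-- the general ternary cubic form with integer coefficients `k` -/
def ncub {R : Type*} [CommRing R] (k : Fin 10 → ℤ) (x y z : R) : R :=
  k 0 * x ^ 3 + k 1 * y ^ 3 + k 2 * z ^ 3 + k 3 * (x ^ 2 * y) + k 4 * (x ^ 2 * z)
    + k 5 * (y ^ 2 * x) + k 6 * (y ^ 2 * z) + k 7 * (z ^ 2 * x) + k 8 * (z ^ 2 * y)
    + k 9 * (x * y * z)

/-- the coefficient of `s² t` in `ncub (s u + t v)` -/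
def ncub1 {R : Type*} [CommRing R] (k : Fin 10 → ℤ) (x y z x' y' z' : R) : R :=
  (3 * k 0 * x ^ 2 + 2 * k 3 * (x * y) + 2 * k 4 * (x * z) + k 5 * y ^ 2 + k 7 * z ^ 2
      + k 9 * (y * z)) * x'
    + (3 * k 1 * y ^ 2 + k 3 * x ^ 2 + 2 * k 5 * (x * y) + 2 * k 6 * (y * z) + k 8 * z ^ 2
      + k 9 * (x * z)) * y'
    + (3 * k 2 * z ^ 2 + k 4 * x ^ 2 + k 6 * y ^ 2 + 2 * k 7 * (x * z) + 2 * k 8 * (y * z)
      + k 9 * (x * y)) * z'

theorem ncub_line {R : Type*} [CommRing R] (k : Fin 10 → ℤ) (s t x y z x' y' z' : R) :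
    ncub k (s * x + t * x') (s * y + t * y') (s * z + t * z')
      = s ^ 3 * ncub k x y z + s ^ 2 * t * ncub1 k x y z x' y' z'
        + s * t ^ 2 * ncub1 k x' y' z' x y z + t ^ 3 * ncub k x' y' z' := by
  unfold ncub ncub1
  ring

theorem map_ncub {R S : Type*} [CommRing R] [CommRing S] (f : R →+* S) (k : Fin 10 → ℤ)
    (x y z : R) : f (ncub k x y z) = ncub k (f x) (f y) (f z) := by
  unfold ncub
  simp

theorem map_ncub1 {R S : Type*} [CommRing R] [CommRing S] (f : R →+* S) (k : Fin 10 → ℤ)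
    (x y z x' y' z' : R) :
    f (ncub1 k x y z x' y' z') = ncub1 k (f x) (f y) (f z) (f x') (f y') (f z') := by
  have h2 : f 2 = 2 := map_ofNat f 2
  have h3 : f 3 = 3 := map_ofNat f 3
  unfold ncub1
  simp [h2, h3]

open Matrix in
/-- the determinant of a linear ternary pencil of `3 × 3` matrices is a ternary cubic form -/
theorem det_pencil {R : Type*} [CommRing R] (A B C : Matrix (Fin 3) (Fin 3) R) :
    ∃ k : Fin 10 → R, ∀ x y z : R,
      (x • A + y • B + z • C).det =
        k 0 * x ^ 3 + k 1 * y ^ 3 + k 2 * z ^ 3 + k 3 * (x ^ 2 * y) + k 4 * (x ^ 2 * z)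
        + k 5 * (y ^ 2 * x) + k 6 * (y ^ 2 * z) + k 7 * (z ^ 2 * x) + k 8 * (z ^ 2 * y)
        + k 9 * (x * y * z) := by
  -- determinant with columns from three matrices
  set d : Matrix (Fin 3) (Fin 3) R → Matrix (Fin 3) (Fin 3) R → Matrix (Fin 3) (Fin 3) R → R :=
    fun P Q S => P 0 0 * Q 1 1 * S 2 2 - P 0 0 * Q 1 2 * S 2 1 - P 0 1 * Q 1 0 * S 2 2
      + P 0 1 * Q 1 2 * S 2 0 + P 0 2 * Q 1 0 * S 2 1 - P 0 2 * Q 1 1 * S 2 0 with hd
  refine ⟨![d A A A, d B B B, d C C C, d A A B + d A B A + d B A A, d A A C + d A C A + d C A A,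
    d B B A + d B A B + d A B B, d B B C + d B C B + d C B B, d C C A + d C A C + d A C C,
    d C C B + d C B C + d B C C,
    d A B C + d A C B + d B A C + d B C A + d C A B + d C B A], ?_⟩
  intro x y z
  rw [Matrix.det_fin_three]
  have e0 : (![d A A A, d B B B, d C C C, d A A B + d A B A + d B A A, d A A C + d A C A + d C A A,
    d B B A + d B A B + d A B B, d B B C + d B C B + d C B B, d C C A + d C A C + d A C C,
    d C C B + d C B C + d B C C,
    d A B C + d A C B + d B A C + d B C A + d C A B + d C B A] : Fin 10 → R) 0 = d A A A := rfl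
  simp only [Matrix.add_apply, Matrix.smul_apply, smul_eq_mul]
  show _ = d A A A * x ^ 3 + d B B B * y ^ 3 + d C C C * z ^ 3
    + (d A A B + d A B A + d B A A) * (x ^ 2 * y) + (d A A C + d A C A + d C A A) * (x ^ 2 * z)
    + (d B B A + d B A B + d A B B) * (y ^ 2 * x) + (d B B C + d B C B + d C B B) * (y ^ 2 * z)
    + (d C C A + d C A C + d A C C) * (z ^ 2 * x) + (d C C B + d C B C + d B C C) * (z ^ 2 * y)
    + (d A B C + d A C B + d B A C + d B C A + d C A B + d C B A) * (x * y * z)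
  rw [hd]
  ring

/-- for every prime `p` there is an integral ternary cubic form that is anisotropic modulo `p`
(a norm form of the field with `p³` elements) -/
theorem exists_anisotropic (p : ℕ) [Fact p.Prime] :
    ∃ k : Fin 10 → ℤ, ∀ x y z : ZMod p, ncub k x y z = 0 → x = 0 ∧ y = 0 ∧ z = 0 := by
  classical
  have hfin : Module.finrank (ZMod p) (GaloisField p 3) = 3 := GaloisField.finrank p (by norm_num)
  have : Module.Finite (ZMod p) (GaloisField p 3) := by
    apply Module.finite_of_finrank_pos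
    omega
  let b : Module.Basis (Fin 3) (ZMod p) (GaloisField p 3) :=
    Module.finBasisOfFinrankEq (ZMod p) (GaloisField p 3) hfin
  obtain ⟨k', hk'⟩ := det_pencil (Algebra.leftMulMatrix b (b 0)) (Algebra.leftMulMatrix b (b 1))
    (Algebra.leftMulMatrix b (b 2))
  have hsurj : ∀ i, ∃ m : ℤ, (m : ZMod p) = k' i := fun i => ZMod.intCast_surjective (k' i)
  choose k hk using hsurj
  refine ⟨k, fun x y z h => ?_⟩
  have h1 : (x • Algebra.leftMulMatrix b (b 0) + y • Algebra.leftMulMatrix b (b 1)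
      + z • Algebra.leftMulMatrix b (b 2)).det = 0 := by
    rw [hk' x y z]
    unfold ncub at h
    simp only [hk] at h
    exact h
  have h2 : Algebra.norm (ZMod p) (x • b 0 + y • b 1 + z • b 2) = 0 := by
    rw [Algebra.norm_eq_matrix_det b]
    simpa using h1
  rw [Algebra.norm_eq_zero_iff] at h2
  have hlin := b.linearIndependent
  rw [Fintype.linearIndependent_iff] at hlin
  have h3 := hlin ![x, y, z] (by
    rw [Fin.sum_univ_three]
    simpa using h2)
  exact ⟨h3 0, h3 1, h3 2⟩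

end Pool.Agent.Lib.P1ae330
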