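import Mathlib
import Pool.Agent.Lib.P1ae330.Norm

/-!
# The descent: the 12-variable form has no `p`-adic line
-/

namespace Pool.Agent.Lib.P1ae330

/-- value of the form
`a b² + a² c + p b c² + N(w) + p N(x) + p² N(y)`, `u = (a, b, c, w, x, y)`. -/
def fval {R : Type*} [CommRing R] (p : ℕ) (k : Fin 10 → ℤ) (u : Fin 12 → R) : R :=
  u 0 * u 1 ^ 2 + u 0 ^ 2 * u 2 + p * (u 1 * u 2 ^ 2) + ncub k (u 3) (u 4) (u 5)
    + p * ncub k (u 6) (u 7) (u 8) + p ^ 2 * ncub k (u 9) (u 10) (u 11)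

/-- the coefficient of `s² t` -/
def fval1 {R : Type*} [CommRing R] (p : ℕ) (k : Fin 10 → ℤ) (u v : Fin 12 → R) : R :=
  (2 * (u 0 * u 1 * v 1) + v 0 * u 1 ^ 2) + (2 * (u 0 * v 0 * u 2) + u 0 ^ 2 * v 2)
    + p * (v 1 * u 2 ^ 2 + 2 * (u 1 * u 2 * v 2))
    + ncub1 k (u 3) (u 4) (u 5) (v 3) (v 4) (v 5)
    + p * ncub1 k (u 6) (u 7) (u 8) (v 6) (v 7) (v 8)
    + p ^ 2 * ncub1 k (u 9) (u 10) (u 11) (v 9) (v 10) (v 11)

theorem fval_line {R : Type*} [CommRing R] (p : ℕ) (k : Fin 10 → ℤ) (s t : R) (u v : Fin 12 → R) :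
    fval p k (fun i => s * u i + t * v i)
      = s ^ 3 * fval p k u + s ^ 2 * t * fval1 p k u v + s * t ^ 2 * fval1 p k v u
        + t ^ 3 * fval p k v := by
  unfold fval fval1
  rw [ncub_line, ncub_line, ncub_line]
  ring

section Padic
variable {p : ℕ} [hp : Fact p.Prime]

/-- a pair spanning a saturated rank two lattice on which the form vanishes -/
def Good (k : Fin 10 → ℤ) (u v : Fin 12 → ℤ_[p]) : Prop :=
  (∀ s t : ℤ_[p], fval p k (fun i => s * u i + t * v i) = 0) ∧
    (∀ s t : ZMod p, (∀ i, s * PadicInt.toZMod (u i) + t * PadicInt.toZMod (v i) = 0) →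
      s = 0 ∧ t = 0)

theorem Good.change {k : Fin 10 → ℤ} {u v : Fin 12 → ℤ_[p]} (h : Good k u v) (j : Fin 12) :
    ∃ u' v' : Fin 12 → ℤ_[p], Good k u' v' ∧ PadicInt.toZMod (v' j) = 0 ∧
      ∀ i, PadicInt.toZMod (u i) = 0 → PadicInt.toZMod (v i) = 0 →
        PadicInt.toZMod (u' i) = 0 ∧ PadicInt.toZMod (v' i) = 0 := by
  by_cases hv : PadicInt.toZMod (v j) = 0
  · exact ⟨u, v, h, hv, fun i h1 h2 => ⟨h1, h2⟩⟩
  · obtain ⟨c, hc⟩ := ZMod.ringHom_surjective (PadicInt.toZMod (p := p))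
      (PadicInt.toZMod (u j) / PadicInt.toZMod (v j))
    refine ⟨v, fun i => u i - c * v i, ⟨?_, ?_⟩, ?_, ?_⟩
    · intro s t
      have := h.1 t (s - c * t)
      rw [← this]
      congr 1
      funext i
      ring
    · intro s t hst
      have := h.2 t (s - PadicInt.toZMod c * t) (by
        intro i
        have h1 := hst i
        simp only [map_sub, map_mul] at h1
        linear_combination h1)
      refine ⟨?_, this.1⟩
      have h2 := this.2
      rw [this.1] at h2
      simpa using h2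
    · simp only [map_sub, map_mul, hc]
      field_simp
      ring
    · intro i h1 h2
      refine ⟨h2, ?_⟩
      simp [h1, h2]

theorem Good.coeffs {k : Fin 10 → ℤ} {u v : Fin 12 → ℤ_[p]} (h : Good k u v) :
    fval p k u = 0 ∧ fval1 p k u v = 0 ∧ fval1 p k v u = 0 ∧ fval p k v = 0 := by
  have h10 := h.1 1 0
  have h01 := h.1 0 1
  have h11 := h.1 1 1
  have h1m := h.1 1 (-1)
  have h21 := h.1 2 1
  rw [fval_line] at h10 h01 h11 h1m h21
  have e1 : fval p k u = 0 := by linear_combination h10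
  have e2 : fval p k v = 0 := by linear_combination h01
  rw [e1, e2] at h11 h1m h21
  have e3 : (2 : ℤ_[p]) * fval1 p k u v = 0 := by linear_combination h21 - 2 * h11
  have e4 : fval1 p k u v = 0 := by
    rcases mul_eq_zero.mp e3 with h | h
    · exact absurd h two_ne_zero
    · exact h
  refine ⟨e1, e4, ?_, e2⟩
  linear_combination h11 - e4

theorem exists_of_toZMod_eq_zero {x : ℤ_[p]} (h : PadicInt.toZMod x = 0) :
    ∃ y : ℤ_[p], x = p * y := by
  have h1 : x ∈ RingHom.ker (PadicInt.toZMod (p := p)) := h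
  rw [PadicInt.ker_toZMod, PadicInt.maximalIdeal_eq_span_p, Ideal.mem_span_singleton] at h1
  exact h1

theorem cancel_p {x : ℤ_[p]} (h : (p : ℤ_[p]) * x = 0) : x = 0 := by
  rcases mul_eq_zero.mp h with h | h
  · exact absurd h (by exact_mod_cast hp.out.ne_zero)
  · exact h

theorem toZMod_p : PadicInt.toZMod (p : ℤ_[p]) = 0 := by simp

theorem ncub_zero_iff_aux {R : Type*} [CommRing R] (k : Fin 10 → ℤ) : ncub k (0 : R) 0 0 = 0 := by
  unfold ncub; simp

theorem ncub1_zero_left {R : Type*} [CommRing R] (k : Fin 10 → ℤ) (x y z : R) :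
    ncub1 k (0 : R) 0 0 x y z = 0 := by
  unfold ncub1; simp

theorem ncub1_zero_right {R : Type*} [CommRing R] (k : Fin 10 → ℤ) (x y z : R) :
    ncub1 k x y z (0 : R) 0 0 = 0 := by
  unfold ncub1; simp

theorem ncub_smul {R : Type*} [CommRing R] (k : Fin 10 → ℤ) (c x y z : R) :
    ncub k (c * x) (c * y) (c * z) = c ^ 3 * ncub k x y z := by
  unfold ncub; ring

theorem ncub1_smul {R : Type*} [CommRing R] (k : Fin 10 → ℤ) (c x y z x' y' z' : R) :
    ncub1 k (c * x) (c * y) (c * z) (c * x') (c * y') (c * z') = c ^ 3 * ncub1 k x y z x' y' z' := by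
  unfold ncub1; ring

/-- a primitive vector of the lattice has one of its first three coordinates a unit -/
theorem Good.alpha {k : Fin 10 → ℤ}
    (hk : ∀ x y z : ZMod p, ncub k x y z = 0 → x = 0 ∧ y = 0 ∧ z = 0)
    {u v : Fin 12 → ℤ_[p]} (h : Good k u v) (h0 : PadicInt.toZMod (v 0) = 0)
    (h1 : PadicInt.toZMod (v 1) = 0) (h2 : PadicInt.toZMod (v 2) = 0) : False := by
  have hF := h.coeffs.2.2.2
  -- the block `w`
  have hw : ncub k (PadicInt.toZMod (v 3)) (PadicInt.toZMod (v 4)) (PadicInt.toZMod (v 5)) = 0 := by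
    have h3 := congrArg (PadicInt.toZMod (p := p)) hF
    unfold fval at h3
    simp only [map_add, map_mul, map_pow, map_ncub, h0, h1, h2, map_zero, toZMod_p] at h3
    linear_combination h3
  obtain ⟨h3, h4, h5⟩ := hk _ _ _ hw
  obtain ⟨a0, e0⟩ := exists_of_toZMod_eq_zero h0
  obtain ⟨a1, e1⟩ := exists_of_toZMod_eq_zero h1
  obtain ⟨a2, e2⟩ := exists_of_toZMod_eq_zero h2
  obtain ⟨a3, e3⟩ := exists_of_toZMod_eq_zero h3
  obtain ⟨a4, e4⟩ := exists_of_toZMod_eq_zero h4
  obtain ⟨a5, e5⟩ := exists_of_toZMod_eq_zero h5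
  have hF1 : (p : ℤ_[p]) ^ 2 * (a0 * a1 ^ 2 + a0 ^ 2 * a2 + p * (a1 * a2 ^ 2) + ncub k a3 a4 a5)
      + ncub k (v 6) (v 7) (v 8) + p * ncub k (v 9) (v 10) (v 11) = 0 := by
    apply cancel_p
    unfold fval at hF
    rw [e0, e1, e2, e3, e4, e5, ncub_smul] at hF
    linear_combination hF
  have hx : ncub k (PadicInt.toZMod (v 6)) (PadicInt.toZMod (v 7)) (PadicInt.toZMod (v 8)) = 0 := by
    have h3 := congrArg (PadicInt.toZMod (p := p)) hF1
    simp only [map_add, map_mul, map_pow, map_ncub, map_zero, toZMod_p] at h3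
    linear_combination h3
  obtain ⟨h6, h7, h8⟩ := hk _ _ _ hx
  obtain ⟨a6, e6⟩ := exists_of_toZMod_eq_zero h6
  obtain ⟨a7, e7⟩ := exists_of_toZMod_eq_zero h7
  obtain ⟨a8, e8⟩ := exists_of_toZMod_eq_zero h8
  have hF2 : (p : ℤ_[p]) * (a0 * a1 ^ 2 + a0 ^ 2 * a2 + p * (a1 * a2 ^ 2) + ncub k a3 a4 a5)
      + p ^ 2 * ncub k a6 a7 a8 + ncub k (v 9) (v 10) (v 11) = 0 := by
    apply cancel_p
    rw [e6, e7, e8, ncub_smul] at hF1
    linear_combination hF1
  have hy : ncub k (PadicInt.toZMod (v 9)) (PadicInt.toZMod (v 10)) (PadicInt.toZMod (v 11)) = 0 := by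
    have h3 := congrArg (PadicInt.toZMod (p := p)) hF2
    simp only [map_add, map_mul, map_pow, map_ncub, map_zero, toZMod_p] at h3
    linear_combination h3
  obtain ⟨h9, h10, h11⟩ := hk _ _ _ hy
  have hfin := h.2 0 1 (by
    intro i
    rw [zero_mul, one_mul, zero_add]
    fin_cases i
    · exact h0
    · exact h1
    · exact h2
    · exact h3
    · exact h4
    · exact h5
    · exact h6
    · exact h7
    · exact h8
    · exact h9
    · exact h10
    · exact h11)
  exact one_ne_zero hfin.2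

/-- there is no saturated rank two lattice on which the form vanishes -/
theorem not_good {k : Fin 10 → ℤ}
    (hk : ∀ x y z : ZMod p, ncub k x y z = 0 → x = 0 ∧ y = 0 ∧ z = 0)
    {u v : Fin 12 → ℤ_[p]} (h : Good k u v) : False := by
  -- first make the coordinate `0` of `v` vanish modulo `p`
  obtain ⟨u, v, h, hv0, -⟩ := h.change 0
  by_cases hu0 : PadicInt.toZMod (u 0) = 0
  · -- the coordinate `0` vanishes identically modulo `p`
    obtain ⟨u, v, h, hv1, hpres⟩ := h.change 1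
    obtain ⟨hu0, hv0⟩ := hpres 0 hu0 hv0
    have hu1 : PadicInt.toZMod (u 1) ≠ 0 := by
      intro hu1
      obtain ⟨u', v', h', hv2', hpres'⟩ := h.change 2
      exact h'.alpha hk (hpres' 0 hu0 hv0).2 (hpres' 1 hu1 hv1).2 hv2'
    have hv2 : PadicInt.toZMod (v 2) ≠ 0 := fun hv2 => h.alpha hk hv0 hv1 hv2
    obtain ⟨c1, c2, c3, c4⟩ := h.coeffs
    have hwu : ncub k (PadicInt.toZMod (u 3)) (PadicInt.toZMod (u 4)) (PadicInt.toZMod (u 5))
        = 0 := by
      have h3 := congrArg (PadicInt.toZMod (p := p)) c1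
      unfold fval at h3
      simp only [map_add, map_mul, map_pow, map_ncub, hu0, map_zero, toZMod_p] at h3
      linear_combination h3
    have hwv : ncub k (PadicInt.toZMod (v 3)) (PadicInt.toZMod (v 4)) (PadicInt.toZMod (v 5))
        = 0 := by
      have h3 := congrArg (PadicInt.toZMod (p := p)) c4
      unfold fval at h3
      simp only [map_add, map_mul, map_pow, map_ncub, hv0, map_zero, toZMod_p] at h3
      linear_combination h3
    obtain ⟨g3, g4, g5⟩ := hk _ _ _ hwu
    obtain ⟨h3, h4, h5⟩ := hk _ _ _ hwv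
    obtain ⟨b0, f0⟩ := exists_of_toZMod_eq_zero hu0
    obtain ⟨b3, f3⟩ := exists_of_toZMod_eq_zero g3
    obtain ⟨b4, f4⟩ := exists_of_toZMod_eq_zero g4
    obtain ⟨b5, f5⟩ := exists_of_toZMod_eq_zero g5
    obtain ⟨a0, e0⟩ := exists_of_toZMod_eq_zero hv0
    obtain ⟨a3, e3⟩ := exists_of_toZMod_eq_zero h3
    obtain ⟨a4, e4⟩ := exists_of_toZMod_eq_zero h4
    obtain ⟨a5, e5⟩ := exists_of_toZMod_eq_zero h5
    have hF1 : a0 * v 1 ^ 2 + p * (a0 ^ 2 * v 2) + v 1 * v 2 ^ 2 + p ^ 2 * ncub k a3 a4 a5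
        + ncub k (v 6) (v 7) (v 8) + p * ncub k (v 9) (v 10) (v 11) = 0 := by
      apply cancel_p
      unfold fval at c4
      rw [e0, e3, e4, e5, ncub_smul] at c4
      linear_combination c4
    have hx : ncub k (PadicInt.toZMod (v 6)) (PadicInt.toZMod (v 7)) (PadicInt.toZMod (v 8))
        = 0 := by
      have h3 := congrArg (PadicInt.toZMod (p := p)) hF1
      simp only [map_add, map_mul, map_pow, map_ncub, map_zero, toZMod_p, hv1] at h3
      linear_combination h3
    obtain ⟨h6, h7, h8⟩ := hk _ _ _ hx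
    have hF2 : (2 * (a0 * v 1 * u 1) + b0 * v 1 ^ 2) + p * (2 * (a0 * b0 * v 2) + a0 ^ 2 * u 2)
        + (u 1 * v 2 ^ 2 + 2 * (v 1 * v 2 * u 2)) + p ^ 2 * ncub1 k a3 a4 a5 b3 b4 b5
        + ncub1 k (v 6) (v 7) (v 8) (u 6) (u 7) (u 8)
        + p * ncub1 k (v 9) (v 10) (v 11) (u 9) (u 10) (u 11) = 0 := by
      apply cancel_p
      unfold fval1 at c3
      rw [e0, e3, e4, e5, f0, f3, f4, f5, ncub1_smul] at c3
      linear_combination c3
    have h9 := congrArg (PadicInt.toZMod (p := p)) hF2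
    simp only [map_add, map_mul, map_pow, map_ncub1, map_zero, toZMod_p, hv1, h6, h7, h8,
      ncub1_zero_left] at h9
    have h10 : PadicInt.toZMod (u 1) * PadicInt.toZMod (v 2) ^ 2 = 0 := by
      linear_combination h9
    rcases mul_eq_zero.mp h10 with h11 | h11
    · exact hu1 h11
    · exact hv2 (pow_eq_zero_iff (two_ne_zero) |>.mp h11)
  · -- the coordinate `0` of `u` is a unit
    obtain ⟨c1, c2, c3, c4⟩ := h.coeffs
    have hwv : ncub k (PadicInt.toZMod (v 3)) (PadicInt.toZMod (v 4)) (PadicInt.toZMod (v 5))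
        = 0 := by
      have h3 := congrArg (PadicInt.toZMod (p := p)) c4
      unfold fval at h3
      simp only [map_add, map_mul, map_pow, map_ncub, hv0, map_zero, toZMod_p] at h3
      linear_combination h3
    obtain ⟨h3, h4, h5⟩ := hk _ _ _ hwv
    have hv1 : PadicInt.toZMod (v 1) = 0 := by
      have h6 := congrArg (PadicInt.toZMod (p := p)) c3
      unfold fval1 at h6
      simp only [map_add, map_mul, map_pow, map_ncub1, map_zero, toZMod_p, hv0, h3, h4, h5,
        ncub1_zero_left] at h6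
      have h7 : PadicInt.toZMod (u 0) * PadicInt.toZMod (v 1) ^ 2 = 0 := by
        linear_combination h6
      rcases mul_eq_zero.mp h7 with h8 | h8
      · exact absurd h8 hu0
      · exact pow_eq_zero_iff (two_ne_zero) |>.mp h8
    have hv2 : PadicInt.toZMod (v 2) = 0 := by
      have h6 := congrArg (PadicInt.toZMod (p := p)) c2
      unfold fval1 at h6
      simp only [map_add, map_mul, map_pow, map_ncub1, map_zero, toZMod_p, hv0, hv1, h3, h4, h5,
        ncub1_zero_right] at h6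
      have h7 : PadicInt.toZMod (u 0) ^ 2 * PadicInt.toZMod (v 2) = 0 := by
        linear_combination h6
      rcases mul_eq_zero.mp h7 with h8 | h8
      · exact absurd (pow_eq_zero_iff (two_ne_zero) |>.mp h8) hu0
      · exact h8
    exact h.alpha hk hv0 hv1 hv2

end Padic

end Pool.Agent.Lib.P1ae330
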