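import Mathlib
import Pool.Agent.Lib.P1ae330.Core

/-!
# From subspaces to saturated lattices
-/

namespace Pool.Agent.Lib.P1ae330

theorem map_fval {R S : Type*} [CommRing R] [CommRing S] (f : R →+* S) (p : ℕ) (k : Fin 10 → ℤ)
    (u : Fin 12 → R) : f (fval p k u) = fval p k (fun i => f (u i)) := by
  unfold fval
  simp [map_ncub]

theorem map_fval1 {R S : Type*} [CommRing R] [CommRing S] (f : R →+* S) (p : ℕ) (k : Fin 10 → ℤ)
    (u v : Fin 12 → R) : f (fval1 p k u v) = fval1 p k (fun i => f (u i)) (fun i => f (v i)) := by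
  have h2 : f 2 = 2 := map_ofNat f 2
  unfold fval1
  simp [map_ncub1, h2]

/-- vanishing on all linear combinations gives the vanishing of all four coefficients -/
theorem coeffs_of_vanish {K : Type*} [Field K] [CharZero K] {p : ℕ} {k : Fin 10 → ℤ}
    {u v : Fin 12 → K} (h : ∀ s t : K, fval p k (fun i => s * u i + t * v i) = 0) :
    fval p k u = 0 ∧ fval1 p k u v = 0 ∧ fval1 p k v u = 0 ∧ fval p k v = 0 := by
  have h10 := h 1 0
  have h01 := h 0 1
  have h11 := h 1 1
  have h1m := h 1 (-1)
  have h21 := h 2 1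
  rw [fval_line] at h10 h01 h11 h1m h21
  have e1 : fval p k u = 0 := by linear_combination h10
  have e2 : fval p k v = 0 := by linear_combination h01
  rw [e1, e2] at h11 h1m h21
  have e3 : (2 : K) * fval1 p k u v = 0 := by linear_combination h21 - 2 * h11
  have e4 : fval1 p k u v = 0 := by
    rcases mul_eq_zero.mp e3 with h | h
    · exact absurd h two_ne_zero
    · exact h
  refine ⟨e1, e4, ?_, e2⟩
  linear_combination h11 - e4

section
variable {p : ℕ} [hp : Fact p.Prime]

theorem exists_pivot {K : Type*} [Field K] (ι : K →+* ℚ_[p]) (w : Fin 12 → K) (hw : w ≠ 0) :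
    ∃ i, w i ≠ 0 ∧ ∀ j, ‖ι ((w i)⁻¹ * w j)‖ ≤ 1 := by
  obtain ⟨i, hi⟩ := Finite.exists_max (fun i => ‖ι (w i)‖)
  have hi0 : w i ≠ 0 := by
    intro h0
    apply hw
    funext j
    have h1 := hi j
    simp only [h0, map_zero, norm_zero] at h1
    have h2 : ι (w j) = 0 := norm_le_zero_iff.mp h1
    exact (map_eq_zero ι).mp h2
  refine ⟨i, hi0, fun j => ?_⟩
  rw [map_mul, map_inv₀, norm_mul, norm_inv]
  have h3 : 0 < ‖ι (w i)‖ := norm_pos_iff.mpr ((map_ne_zero ι).mpr hi0)
  rw [inv_mul_le_iff₀ h3, mul_one]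
  exact hi j

/-- the form does not vanish on any two-dimensional subspace of `K^12`, `K ⊆ ℚ_p` -/
theorem no_line {k : Fin 10 → ℤ}
    (hk : ∀ x y z : ZMod p, ncub k x y z = 0 → x = 0 ∧ y = 0 ∧ z = 0)
    {K : Type*} [Field K] [CharZero K] (ι : K →+* ℚ_[p]) (W : Submodule K (Fin 12 → K))
    (hW : Module.finrank K W = 2) (h : ∀ w ∈ W, fval p k w = 0) : False := by
  have : Module.Finite K W := Module.finite_of_finrank_pos (by omega)
  let b : Module.Basis (Fin 2) K W := Module.finBasisOfFinrankEq K W hW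
  have hb := b.linearIndependent
  rw [Fintype.linearIndependent_iff] at hb
  set w1 : Fin 12 → K := (b 0 : Fin 12 → K) with hw1
  set w2 : Fin 12 → K := (b 1 : Fin 12 → K) with hw2
  have hw1W : w1 ∈ W := (b 0).2
  have hw2W : w2 ∈ W := (b 1).2
  have hind : ∀ x y : K, x • w1 + y • w2 = 0 → x = 0 ∧ y = 0 := by
    intro x y hxy
    have h1 := hb ![x, y] (by
      rw [Fin.sum_univ_two]
      apply Subtype.ext
      simpa using hxy)
    exact ⟨h1 0, h1 1⟩
  have hw1ne : w1 ≠ 0 := by
    intro h0
    have := (hind 1 0 (by simp [h0])).1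
    exact one_ne_zero this
  obtain ⟨i, hi0, hi⟩ := exists_pivot ι w1 hw1ne
  -- first vector
  set u : Fin 12 → K := (w1 i)⁻¹ • w1 with hu
  have huW : u ∈ W := W.smul_mem _ hw1W
  have hui : u i = 1 := by simp [hu, hi0]
  -- second vector
  set w3 : Fin 12 → K := w2 - (w2 i) • u with hw3
  have hw3W : w3 ∈ W := W.sub_mem hw2W (W.smul_mem _ huW)
  have hw3i : w3 i = 0 := by simp [hw3, hui]
  have hw3ne : w3 ≠ 0 := by
    intro h0
    have h1 : (-(w2 i * (w1 i)⁻¹)) • w1 + (1 : K) • w2 = 0 := by
      rw [← h0, hw3, hu, smul_smul]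
      simp only [neg_smul, one_smul]
      abel
    exact one_ne_zero (hind _ _ h1).2
  obtain ⟨j, hj0, hj⟩ := exists_pivot ι w3 hw3ne
  set v : Fin 12 → K := (w3 j)⁻¹ • w3 with hv
  have hvW : v ∈ W := W.smul_mem _ hw3W
  have hvj : v j = 1 := by simp [hv, hj0]
  have hvi : v i = 0 := by simp [hv, hw3i]
  have hun : ∀ l, ‖ι (u l)‖ ≤ 1 := fun l => by simpa [hu] using hi l
  have hvn : ∀ l, ‖ι (v l)‖ ≤ 1 := fun l => by simpa [hv] using hj l
  obtain ⟨c1, c2, c3, c4⟩ := coeffs_of_vanish (p := p) (k := k) (u := u) (v := v) (by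
    intro s t
    have h1 := h (s • u + t • v) (W.add_mem (W.smul_mem _ huW) (W.smul_mem _ hvW))
    exact h1)
  -- integral vectors
  let U : Fin 12 → ℤ_[p] := fun l => ⟨ι (u l), hun l⟩
  let V : Fin 12 → ℤ_[p] := fun l => ⟨ι (v l), hvn l⟩
  have hUi : U i = 1 := by
    apply Subtype.ext
    show ι (u i) = 1
    rw [hui, map_one]
  have hVi : V i = 0 := by
    apply Subtype.ext
    show ι (v i) = 0
    rw [hvi, map_zero]
  have hVj : V j = 1 := by
    apply Subtype.ext
    show ι (v j) = 1
    rw [hvj, map_one]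
  have hinj : Function.Injective (PadicInt.Coe.ringHom (p := p)) := Subtype.coe_injective
  have d1 : fval p k U = 0 := by
    apply hinj
    rw [map_fval, map_zero]
    have := congrArg ι c1
    rw [map_fval, map_zero] at this
    exact this
  have d4 : fval p k V = 0 := by
    apply hinj
    rw [map_fval, map_zero]
    have := congrArg ι c4
    rw [map_fval, map_zero] at this
    exact this
  have d2 : fval1 p k U V = 0 := by
    apply hinj
    rw [map_fval1, map_zero]
    have := congrArg ι c2
    rw [map_fval1, map_zero] at this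
    exact this
  have d3 : fval1 p k V U = 0 := by
    apply hinj
    rw [map_fval1, map_zero]
    have := congrArg ι c3
    rw [map_fval1, map_zero] at this
    exact this
  refine not_good hk (u := U) (v := V) ⟨?_, ?_⟩
  · intro s t
    rw [fval_line, d1, d2, d3, d4]
    ring
  · intro s t hst
    have h1 := hst i
    rw [hUi, hVi, map_one, map_zero] at h1
    have hs : s = 0 := by linear_combination h1
    have h2 := hst j
    rw [hVj, map_one, hs] at h2
    exact ⟨hs, by linear_combination h2⟩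

end

end Pool.Agent.Lib.P1ae330
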